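import Mathlib
import Pool.Agent.Y215.AF.LogConv
import Pool.Agent.R870.CycDefs

set_option autoImplicit false

/-! # Sums of vectors with small multipliers on affine varieties: definitions -/

namespace Pool.Agent.R849.AF

open MvPolynomial Pool.Agent.Helper259.AbsHt Pool.Agent.Y215.AF
open Pool.Agent.H159R3.Exp (Laur)

variable {n N r : ℕ}

/-- the points over `L` on `F = 0` and off `G = 0` of the form `∑ t_j V_j`, with algebraic numbers
`t_j` (embedded in `L` by `ι`) such that `h(1 : t) < ε` -/
def smallA {k L : Type} [Field k] [Field L] [Algebra k L] (ι : Qbar →+* L)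
    (F : Fin N → MvPolynomial (Fin n) k) (G : MvPolynomial (Fin n) k) (ε : ℝ)
    (V : Fin r → Fin n → L) : Set (Fin n → L) :=
  {x | OffA F G x ∧ ∃ t : Fin r → Qbar, hA t < ε ∧ ∀ a, x a = ∑ j, ι (t j) * V j a}

/-- the points over `L` on `F = 0` and off `G = 0` of the form `∑ α_j V_j`, with cyclotomic integers
`α_j` in `L` for which the mean of the squares of the absolute values of the complex conjugates is
at most `B` -/
def cycA {k L : Type} [Field k] [Field L] [Algebra k L]
    (F : Fin N → MvPolynomial (Fin n) k) (G : MvPolynomial (Fin n) k) (B : ℝ)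
    (V : Fin r → Fin n → L) : Set (Fin n → L) :=
  {x | OffA F G x ∧ ∃ α : Fin r → L, (∀ j, Pool.Agent.R870.CycInt B (α j)) ∧
    ∀ a, x a = ∑ j, α j * V j a}

/-- the points over `L` on `F = 0` and off `G = 0` of the form `∑ ζ_j V_j` with roots of unity
`ζ_j` -/
def torsA {k L : Type} [Field k] [Field L] [Algebra k L]
    (F : Fin N → MvPolynomial (Fin n) k) (G : MvPolynomial (Fin n) k)
    (V : Fin r → Fin n → L) : Set (Fin n → L) :=
  {x | OffA F G x ∧ ∃ ζ : Fin r → L, (∀ j, ∃ m : ℕ, 0 < m ∧ ζ j ^ m = 1) ∧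
    ∀ a, x a = ∑ j, ζ j * V j a}

/-- There is no nonconstant map from the punctured line to `F = 0` over any extension of `k`. -/
def NoGmExt {k : Type} [Field k] (F : Fin N → MvPolynomial (Fin n) k) : Prop :=
  ∀ (L : Type) [Field L] [Algebra k L] (v : L → Fin n → L),
    (∀ a, Laur fun t => v t a) → (∀ i t, t ≠ 0 → aeval (v t) (F i) = 0) →
    ∀ t s, t ≠ 0 → s ≠ 0 → v t = v s

end Pool.Agent.R849.AF
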