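import Mathlib
import Pool.Agent.R849.AF.SmallDefs
import Pool.Agent.Y215.SP.Off

set_option autoImplicit false

/-! # Sums of vectors with small multipliers on affine varieties: a uniform bound -/

namespace Pool.Agent.R849.AF

open Finset MvPolynomial NumberField
open Pool.Agent.Helper259.AbsHt Pool.Agent.Y215.SP Pool.Agent.Y215.AF
open Pool.Agent.H533R3.SL (cur)
open Pool.Agent.W235.RM (hmg hmg_homog)
open Pool.Agent.H159R3.Exp (Laur cpt cpt_laur)

variable {n N r : ℕ}

/-- version of `card_smallOff` for vectors with prescribed zeros -/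
theorem card_smallOffT {k : Type} [Field k] (P : Fin N → MvPolynomial (Fin (n + 1)) k) (d : ℕ)
    (hd : 1 ≤ d) (hP : ∀ i, ∃ e, e ≤ d ∧ (P i).IsHomogeneous e)
    (G : MvPolynomial (Fin (n + 1)) k) (T : Set (Fin r × Fin (n + 1)))
    {L : Type} [Field L] [Algebra k L]
    (hG : ∀ (c : Fin r → Fin (n + 1) → L) (l : Fin r → ℕ),
        (∀ j a, (j, a) ∉ T → c j a = 0) →
        (∀ i, MvPolynomial.aeval (cur c l) (P i) = 0) →
        (∃ i i', cur c l i * Polynomial.C (∑ j, c j i') ≠
          cur c l i' * Polynomial.C (∑ j, c j i)) →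
        MvPolynomial.aeval (fun i => ∑ j, c j i) G = 0)
    (ι : Qbar →+* L) (v : Fin r → Fin (n + 1) → L) (hv : ∀ j a, (j, a) ∉ T → v j a = 0) :
    (smallOff ι P G (epsn ((d + 1) ^ r) / d) v).encard ≤
      (2 ^ r * M0 ((d + 1) ^ r) d r : ℕ) := by
  classical
  set ε := epsn ((d + 1) ^ r) / d with hε
  let mask : Finset (Fin r) → Fin r → Fin (n + 1) → L := fun A j i => if j ∈ A then v j i else 0
  have hcov : smallOff ι P G ε v ⊆ ⋃ A : Finset (Fin r), Off0 ι P G ε (mask A) := by
    rintro p ⟨t, hth, htz, htG, h0, hp⟩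
    have hA : ∃ j1, t j1 ≠ 0 := by
      by_contra h
      push Not at h
      apply h0
      funext i
      refine Finset.sum_eq_zero fun j _ => ?_
      rw [h j, map_zero, zero_mul]
    obtain ⟨j1, hj1⟩ := hA
    let A := Finset.univ.filter (fun j => t j ≠ 0)
    let σ : Fin r → Fin r := fun j => if t j ≠ 0 then j else j1
    have hpt : pt ι (mask A) (t ∘ σ) = pt ι v t := by
      funext i
      refine Finset.sum_congr rfl fun j _ => ?_
      by_cases hj : t j = 0
      · have h1 : mask A j i = 0 := if_neg (by simp [A, hj])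
        rw [h1, hj, map_zero, zero_mul, mul_zero]
      · have h1 : mask A j i = v j i := if_pos (by simp [A, hj])
        have h2 : σ j = j := if_pos hj
        rw [h1, Function.comp_apply, h2]
    rw [Set.mem_iUnion]
    refine ⟨A, t ∘ σ, fun j => ?_, ?_, ?_, ?_, ?_⟩
    · by_cases hj : t j = 0
      · have h2 : σ j = j1 := if_neg (by simpa using hj)
        rw [Function.comp_apply, h2]
        exact hj1
      · have h2 : σ j = j := if_pos hj
        rw [Function.comp_apply, h2]
        exact hj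
    · exact lt_of_le_of_lt (absLogHeight_comp_le σ t) hth
    · rw [hpt]; exact htz
    · rw [hpt]; exact htG
    · have h1 : pt ι (mask A) (t ∘ σ) ≠ 0 := by rw [hpt]; exact h0
      exact ⟨h1, hp.trans (mk_congr h0 h1 hpt.symm)⟩
  refine (encard_le_mul _ _ (M0 ((d + 1) ^ r) d r) hcov fun A => ?_).trans ?_
  · obtain ⟨P', hP'1, hP'2⟩ := exists_few (mask A) P d hP
    have hsub : Off0 ι P G ε (mask A) ⊆ Off0 ι P' G ε (mask A) := by
      rintro p ⟨t, h1, h2, h3, h4, h5⟩
      refine ⟨t, h1, h2, fun a => ?_, h4, h5⟩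
      rcases hP'1 a with h | ⟨i, h⟩
      · rw [h, map_zero]
      · rw [h]
        exact h3 i
    refine (Set.encard_le_encard hsub).trans ?_
    refine card_off0 P' d hd (fun a => ?_) G ι (mask A) fun s l hz hc => ?_
    · rcases hP'1 a with h | ⟨i, h⟩
      · exact ⟨0, Nat.zero_le _, by rw [h]; exact MvPolynomial.isHomogeneous_zero _ _ _⟩
      · rw [h]
        exact hP i
    · refine hG _ l (fun j a hja => ?_) (fun i => cur_span s (mask A) l P' hz (P i) (hP'2 i)) hc
      have h1 : mask A j a = 0 := by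
        show (if j ∈ A then v j a else 0) = 0
        split_ifs
        · exact hv j a hja
        · rfl
      show s j * mask A j a = 0
      rw [h1, mul_zero]
  · rw [Nat.card_eq_fintype_card, Fintype.card_finset, Fintype.card_fin]

theorem homC_zero {L : Type} [CommRing L] (V : Fin r → Fin n → L) (j : Fin (r + 1))
    (a : Fin (n + 1)) (h : (j, a) ∉ TT r n) : homC V j a = 0 := by
  unfold homC
  refine Fin.cases (motive := fun j => (j, a) ∉ TT r n → (Fin.cons (Fin.cons 1 (fun _ => 0))
    (fun j => Fin.cons 0 (V j)) : Fin (r + 1) → Fin (n + 1) → L) j a = 0) ?_ ?_ j h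
  · intro h
    rw [Fin.cons_zero]
    refine Fin.cases (motive := fun a => ((0 : Fin (r + 1)), a) ∉ TT r n →
      (Fin.cons 1 (fun _ => 0) : Fin (n + 1) → L) a = 0) ?_ ?_ a h
    · intro h
      exact absurd (Or.inl rfl) h
    · intro a _
      rw [Fin.cons_succ]
  · intro j h
    rw [Fin.cons_succ]
    refine Fin.cases (motive := fun a => (j.succ, a) ∉ TT r n →
      (Fin.cons 0 (V j) : Fin (n + 1) → L) a = 0) ?_ ?_ a h
    · intro _
      rw [Fin.cons_zero]
    · intro a h
      exact absurd (Or.inr ⟨Fin.succ_ne_zero _, Fin.succ_ne_zero _⟩) h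

/-- the explicit `ε` -/
noncomputable def epsA (d r : ℕ) : ℝ := epsn ((d + 1) ^ (r + 1)) / d

/-- the explicit bound -/
noncomputable def MA (d r : ℕ) : ℕ := 2 ^ (r + 1) * M0 ((d + 1) ^ (r + 1)) d (r + 1)

theorem epsA_pos (d r : ℕ) (hd : 1 ≤ d) : 0 < epsA d r :=
  div_pos (epsn_pos _ (Nat.one_le_pow _ _ (by omega))) (by exact_mod_cast hd)

/-- **the uniform bound** -/
theorem card_smallA {k : Type} [Field k] (F : Fin N → MvPolynomial (Fin n) k) (d : ℕ)
    (hd1 : 1 ≤ d) (hd : ∀ i, (F i).totalDegree ≤ d) (G : MvPolynomial (Fin n) k)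
    (hcur : CurCond F d G r) {L : Type} [Field L] [Algebra k L] (ι : Qbar →+* L)
    (V : Fin r → Fin n → L) : (smallA ι F G (epsA d r) V).encard ≤ MA d r := by
  classical
  have hmain := card_smallOffT (r := r + 1) (fun i => hmg d (F i)) d hd1
    (fun i => ⟨d, le_rfl, hmg_homog d _ (hd _)⟩) (X 0 * hmg G.totalDegree G) (TT r n)
    (pattern_cond F d G.totalDegree hd G le_rfl r hcur L) ι (homC V)
    (fun j a h => homC_zero V j a h)
  refine le_trans ?_ hmain
  let θ : (Fin n → L) → Projectivization L (Fin (n + 1) → L) := fun x =>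
    Projectivization.mk L (Fin.cons 1 x : Fin (n + 1) → L) (cons_one_ne x)
  refine Set.encard_le_encard_of_injOn (f := θ) ?_ ?_
  · rintro x ⟨hxo, t, ht, hx⟩
    have e1 : pt ι (homC V) (Fin.cons 1 t : Fin (r + 1) → Qbar) =
        (Fin.cons 1 x : Fin (n + 1) → L) := by
      funext a
      unfold pt
      rw [Fin.sum_univ_succ]
      refine Fin.cases ?_ (fun a => ?_) a
      · simp [homC]
      · simp only [homC, Fin.cons_zero, Fin.cons_succ, mul_zero, zero_add]
        rw [hx a]
    obtain ⟨h1, h2, h3⟩ := onOff_consA F d _ hd G le_rfl x hxo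
    refine ⟨(Fin.cons 1 t : Fin (r + 1) → Qbar), lt_of_le_of_lt (cons_le_hA t) ht, ?_, ?_, ?_⟩
    · rw [e1]
      exact h2
    · rw [e1]
      exact h3
    · rw [e1]
      exact ⟨cons_one_ne x, rfl⟩
  · intro x _ y _ hxy
    obtain ⟨c, hc⟩ := (Projectivization.mk_eq_mk_iff' L _ _ (cons_one_ne x)
      (cons_one_ne y)).1 hxy
    have h0 := congrFun hc 0
    rw [Pi.smul_apply, Fin.cons_zero, Fin.cons_zero, smul_eq_mul, mul_one] at h0
    rw [h0, one_smul] at hc
    funext a
    have := congrFun hc a.succ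
    rw [Fin.cons_succ, Fin.cons_succ] at this
    exact this.symm

/-- the condition on curves for varieties without punctured lines -/
theorem curCond_ext {k : Type} [Field k] [CharZero k]
    (F : Fin N → MvPolynomial (Fin n) k) (d : ℕ) (hd : ∀ i, (F i).totalDegree ≤ d)
    (h : NoGmExt F) (r : ℕ) : CurCond F d 1 r := by
  intro L _ _ c l hz hc
  exfalso
  have hchar : CharZero L := charZero_of_injective_algebraMap (algebraMap k L).injective
  obtain ⟨i, i', hc⟩ := hc
  obtain ⟨m, hm⟩ := lc_nonconst c l i i' hc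
  exact hm (h L (lc c l) (lc_laur c l) (fun i t ht => lc_zero d (F i) (hd i) c l (hz i) t ht)
    (2 ^ m) 1 (pow_ne_zero _ two_ne_zero) one_ne_zero)

/-- over number fields it is enough to consider maps over number fields -/
theorem noGm_ext {k : Type} [Field k] [NumberField k] (F : Fin N → MvPolynomial (Fin n) k)
    (h : NoGmCurve F) : NoGmExt F := by
  classical
  intro M0 _ _ v hv hF t s ht hs
  by_contra hne
  have hchar : CharZero M0 := charZero_of_injective_algebraMap (algebraMap k M0).injective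
  obtain ⟨k1, j1, hk1⟩ := exists_k1 v hv ⟨t, s, ht, hs, hne⟩
  obtain ⟨e, D, κ0, hκ0⟩ := exists_cpt v hv
  have h20 : (2 : M0) ^ k1 ≠ 0 := pow_ne_zero _ two_ne_zero
  obtain ⟨L, _, _, hNF, κ, hκF, hκW⟩ := descendC F
    (X (Sum.inr j1) - X (Sum.inl j1)) M0 e κ0
    (fun i t ht => by
      rw [hκ0 t ht]
      exact hF i t ht) k1 (by
    rw [hκ0 _ one_ne_zero, hκ0 _ h20, map_sub, aeval_X, aeval_X]
    simp only [Sum.elim_inr, Sum.elim_inl]
    exact sub_ne_zero.mpr hk1)
  rw [map_sub, aeval_X, aeval_X] at hκW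
  simp only [Sum.elim_inr, Sum.elim_inl] at hκW
  apply sub_ne_zero.mp hκW
  have h1 := h L (cpt e κ) (cpt_laur e κ) hκF (2 ^ k1) 1 (pow_ne_zero _ two_ne_zero) one_ne_zero
  exact congrFun h1 j1

end Pool.Agent.R849.AF
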