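import Mathlib
import Pool.Agent.R849.AF.Small
import Pool.Agent.R870.Cyc

set_option autoImplicit false

/-! # Cyclotomic integral points, and the converse -/

namespace Pool.Agent.R849.AF

open Finset MvPolynomial NumberField
open Pool.Agent.Helper259.AbsHt Pool.Agent.Y215.SP Pool.Agent.Y215.AF Pool.Agent.Helper781.CycHouse
open Pool.Agent.R870 (CycInt cyc_sum height_tors roots_infinite h1_of_pow_eq_one)
open Pool.Agent.H159R3.Exp (Laur cpt cpt_laur)

variable {n N r : ℕ}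

theorem hA_tors (t : Fin r → Qbar) (ht : ∀ j, t j = 0 ∨ ∃ m : ℕ, 0 < m ∧ t j ^ m = 1) :
    hA t = 0 := by
  refine le_antisymm ((hA_le_cons t).trans ?_) (hA_nonneg t)
  rw [height_tors]
  intro j
  refine Fin.cases ?_ (fun j => ?_) j
  · right
    exact ⟨1, one_pos, by simp⟩
  · rw [Fin.cons_succ]
    exact ht j

/-- combinations with cyclotomic integers are combinations with roots of unity -/
theorem cycA_subset (B : ℝ) : ∃ D : ℕ, ∀ {k L : Type} [Field k] [Field L] [Algebra k L]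
    (ι : Qbar →+* L) (n N r : ℕ) (F : Fin N → MvPolynomial (Fin n) k)
    (G : MvPolynomial (Fin n) k) (V : Fin r → Fin n → L) (ε : ℝ), 0 < ε →
      cycA F G B V ⊆ smallA ι F G ε (fun j : Fin (r * D) => V (finProdFinEquiv.symm j).1) := by
  obtain ⟨D, hD⟩ := cyc_sum B
  refine ⟨D, ?_⟩
  intro k L _ _ _ ι n N r F G V ε hε
  rintro x ⟨hx, α, hα, hxα⟩
  choose w hw1 hw2 using fun j => hD L ι (α j) (hα j)
  refine ⟨hx, fun j => w (finProdFinEquiv.symm j).1 (finProdFinEquiv.symm j).2, ?_, fun a => ?_⟩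
  · rw [hA_tors _ (fun j => hw1 _ _)]
    exact hε
  · rw [Equiv.sum_comp finProdFinEquiv.symm
      (fun q : Fin r × Fin D => ι (w q.1 q.2) * V q.1 a), Fintype.sum_prod_type, hxα a]
    refine Finset.sum_congr rfl fun j _ => ?_
    show α j * V j a = ∑ y, ι (w j y) * V j a
    rw [← Finset.sum_mul, ← hw2 j]

/-- passing to a larger field -/
theorem cycA_ext {k L : Type} [Field k] [Field L] [Algebra k L] (L' : Type) [Field L']
    [Algebra k L'] (φ : L →ₐ[k] L')
    (F : Fin N → MvPolynomial (Fin n) k) (G : MvPolynomial (Fin n) k) (B : ℝ)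
    (V : Fin r → Fin n → L) :
    (cycA F G B V).encard ≤ (cycA F G B (fun j a => φ (V j a))).encard := by
  classical
  have hev : ∀ (p : MvPolynomial (Fin n) k) (x : Fin n → L),
      aeval (fun a => φ (x a)) p = φ (aeval x p) := by
    intro p x
    rw [← MvPolynomial.comp_aeval_apply]
  refine Set.encard_le_encard_of_injOn (f := fun (x : Fin n → L) a => φ (x a)) ?_ ?_
  · rintro x ⟨⟨h1, h2⟩, α, hα, hx⟩
    refine ⟨⟨fun i => ?_, ?_⟩, fun j => φ (α j), fun j => ?_, fun a => ?_⟩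
    · rw [hev, h1, map_zero]
    · rw [hev]
      exact (map_ne_zero φ).2 h2
    · obtain ⟨m, ζ, f, hm, hζ, hf, hx⟩ := hα j
      refine ⟨m, φ ζ, f, hm, hζ.map_of_injective φ.injective, hf, ?_⟩
      show _ = φ (α j)
      rw [← hx]
      exact (map_aeval_int (φ : L →+* L') ζ f).symm
    · show φ (x a) = _
      rw [hx a, map_sum]
      exact Finset.sum_congr rfl fun j _ => map_mul _ _ _
  · intro x _ y _ hxy
    funext a
    exact φ.injective (congrFun hxy a)

theorem cyc_bound (d r : ℕ) (hd1 : 1 ≤ d) (B : ℝ) : ∃ (M : ℕ) (R : ℕ), ∀ (k : Type) [Field k]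
    [CharZero k] (n N : ℕ) (F : Fin N → MvPolynomial (Fin n) k), (∀ i, (F i).totalDegree ≤ d) →
    ∀ (G : MvPolynomial (Fin n) k), CurCond F d G R →
      ∀ (L : Type) [Field L] [Algebra k L] (V : Fin r → Fin n → L), (cycA F G B V).encard ≤ M := by
  obtain ⟨D, hD⟩ := cycA_subset B
  refine ⟨MA d (r * D), r * D, fun k _ _ n N F hd G hcur L _ _ V => ?_⟩
  have : CharZero L := charZero_of_injective_algebraMap (algebraMap k L).injective
  let φ : L →ₐ[k] AlgebraicClosure L := IsScalarTower.toAlgHom k L (AlgebraicClosure L)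
  have : CharZero (AlgebraicClosure L) :=
    charZero_of_injective_algebraMap (algebraMap L (AlgebraicClosure L)).injective
  obtain ⟨ι⟩ : Nonempty (Qbar →+* AlgebraicClosure L) := Pool.Agent.R870.exists_emb _
  refine (cycA_ext (AlgebraicClosure L) φ F G B V).trans ?_
  exact (Set.encard_le_encard (hD ι n N r F G _ (epsA d (r * D)) (epsA_pos d _ hd1))).trans
    (card_smallA F d hd1 hd G hcur ι _)

/-! ### The converse -/

theorem laur_zeros {L : Type} [Field L] {φ : L → L} (hφ : Laur φ) (h0 : ∃ t, t ≠ 0 ∧ φ t ≠ 0) :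
    {t | t ≠ 0 ∧ φ t = 0}.Finite := by
  classical
  obtain ⟨M, Q, hQ⟩ := hφ
  obtain ⟨t0, ht0, ht1⟩ := h0
  have hQ0 : Q ≠ 0 := by
    rintro rfl
    have h1 := hQ t0 ht0
    rw [Polynomial.eval_zero] at h1
    exact (mul_ne_zero ht1 (pow_ne_zero _ ht0)) h1
  refine (Polynomial.finite_setOfPred_isRoot hQ0).subset ?_
  rintro t ⟨ht, ht2⟩
  show Q.eval t = 0
  rw [← hQ t ht, ht2, zero_mul]

/-- infinitely many points with roots of unity as multipliers on a curve -/
theorem inf_tors {k : Type} [Field k] (F : Fin N → MvPolynomial (Fin n) k)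
    (G : MvPolynomial (Fin n) k) {L : Type} [Field L] [Algebra k L] [CharZero L]
    [Algebra k Qbar] (φ : L →ₐ[k] Qbar) {D : ℕ} (e : ℕ) (κ : Fin n × Fin (D + 1) → L)
    (hF : ∀ i t, t ≠ 0 → aeval (cpt e κ t) (F i) = 0)
    (hG : aeval (cpt e κ 1) G ≠ 0) (k1 : ℕ) (j1 : Fin n)
    (hk : cpt e κ (2 ^ k1) j1 ≠ cpt e κ 1 j1) :
    (torsA F G (fun (i : Fin (D + 1)) (a : Fin n) => φ (κ (a, i)))).Infinite := by
  classical
  let κ' : Fin n × Fin (D + 1) → Qbar := fun p => φ (κ p)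
  have hcpt : ∀ t : L, cpt e κ' (φ t) = fun a => φ (cpt e κ t a) := by
    intro t
    funext a
    unfold cpt
    rw [map_div₀, map_sum, map_pow]
    congr 1
    refine Finset.sum_congr rfl fun l _ => ?_
    rw [map_mul, map_pow]
  have hev : ∀ (p : MvPolynomial (Fin n) k) (t : L),
      aeval (cpt e κ' (φ t)) p = φ (aeval (cpt e κ t) p) := by
    intro p t
    rw [hcpt t, ← MvPolynomial.comp_aeval_apply]
  have hv' := cpt_laur e κ'
  have hlaur : ∀ p : MvPolynomial (Fin n) k, Laur fun t => aeval (cpt e κ' t) p := fun p =>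
    Laur.eval₂ (algebraMap k Qbar) (cpt e κ') hv' p
  have hF' : ∀ i t, t ≠ 0 → aeval (cpt e κ' t) (F i) = 0 := by
    intro i
    apply Pool.Agent.H159R3.Exp.Laur.zero_of_zero (hlaur (F i))
    intro m
    have h2 : ((2 : Qbar) ^ m) = φ (2 ^ m) := by rw [map_pow, map_ofNat]
    rw [h2, hev, hF i _ (pow_ne_zero _ two_ne_zero), map_zero]
  have hG0 : {t : Qbar | t ≠ 0 ∧ aeval (cpt e κ' t) G = 0}.Finite := by
    refine laur_zeros (hlaur G) ⟨1, one_ne_zero, ?_⟩
    have h1 := hev G 1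
    rw [map_one] at h1
    rw [h1]
    exact (map_ne_zero φ).2 hG
  have hfib : ∀ x : Fin n → Qbar, {t : Qbar | t ≠ 0 ∧ cpt e κ' t = x}.Finite := by
    intro x
    have h1 : Laur fun t => cpt e κ' t j1 + (-(x j1)) := (hv' j1).add (Laur.const _)
    refine (laur_zeros h1 ?_).subset ?_
    · by_contra hcon
      push Not at hcon
      have h20 : (2 : Qbar) ^ k1 ≠ 0 := pow_ne_zero _ two_ne_zero
      have h2 := hcon _ h20
      have h3 := hcon 1 one_ne_zero
      apply hk
      refine φ.injective ?_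
      show φ (cpt e κ (2 ^ k1) j1) = φ (cpt e κ 1 j1)
      have h4 : cpt e κ' (2 ^ k1) j1 = φ (cpt e κ (2 ^ k1) j1) := by
        have h5 := congrFun (hcpt (2 ^ k1)) j1
        rw [map_pow, map_ofNat] at h5
        exact h5
      have h5 : cpt e κ' 1 j1 = φ (cpt e κ 1 j1) := by
        have h6 := congrFun (hcpt 1) j1
        rw [map_one] at h6
        exact h6
      rw [← h4, ← h5]
      linear_combination h2 - h3
    · rintro t ⟨ht, ht2⟩
      refine ⟨ht, ?_⟩
      show cpt e κ' t j1 + (-(x j1)) = 0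
      rw [ht2, add_neg_cancel]
  intro hfin
  have hroots := roots_infinite (RingHom.id Qbar)
  apply hroots
  have hall : {z : Qbar | ∃ m : ℕ, 0 < m ∧ z ^ m = 1} ⊆
      {t : Qbar | t ≠ 0 ∧ aeval (cpt e κ' t) G = 0} ∪
      ⋃ x ∈ torsA F G (fun (i : Fin (D + 1)) (a : Fin n) => φ (κ (a, i))),
        {t : Qbar | t ≠ 0 ∧ cpt e κ' t = x} := by
    rintro z ⟨m, hm, hz⟩
    have hz0 : z ≠ 0 := by
      rintro rfl
      rw [zero_pow hm.ne'] at hz
      exact zero_ne_one hz
    by_cases h : aeval (cpt e κ' z) G = 0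
    · exact Or.inl ⟨hz0, h⟩
    · right
      rw [Set.mem_iUnion₂]
      refine ⟨cpt e κ' z, ⟨⟨fun i => hF' i z hz0, h⟩, fun i => z ^ (i : ℕ) / z ^ e,
        fun j => ⟨m, hm, ?_⟩, fun a => ?_⟩, hz0, rfl⟩
      · rw [div_pow, ← pow_mul, ← pow_mul, mul_comm, pow_mul, hz, one_pow, mul_comm e, pow_mul, hz,
          one_pow, div_one]
      · unfold cpt
        rw [Finset.sum_div]
        refine Finset.sum_congr rfl fun l _ => ?_
        show φ (κ (a, l)) * z ^ (l : ℕ) / z ^ e = z ^ (l : ℕ) / z ^ e * φ (κ (a, l))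
        ring
  exact (hG0.union (hfin.biUnion fun x _ => hfib x)).subset hall

theorem emb_alg {k L : Type} [Field k] [Field L] [Algebra k L] [NumberField L] :
    ∃ (i : Algebra k Qbar), Nonempty (@AlgHom k L Qbar _ _ _ _ i) := by
  obtain ⟨φ⟩ := exists_emb L
  let i : Algebra k Qbar := (φ.comp (algebraMap k L)).toAlgebra
  let ψ : L →ₐ[k] Qbar := { φ with commutes' := fun _ => rfl }
  exact ⟨i, ⟨ψ⟩⟩

/-- **Converse for a subvariety.** -/
theorem conv_curve {k : Type} [Field k] [NumberField k] (F : Fin N → MvPolynomial (Fin n) k)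
    (h : ¬ NoGmCurve F) : ∃ (r : ℕ) (_ : Algebra k Qbar) (V : Fin r → Fin n → Qbar),
      (torsA F 1 V).Infinite := by
  classical
  unfold NoGmCurve at h
  push Not at h
  obtain ⟨L, _, _, _, v, hv, hF, t, s, ht, hs, hne⟩ := h
  obtain ⟨k1, j1, hk1⟩ := exists_k1 v hv ⟨t, s, ht, hs, hne⟩
  obtain ⟨e, D, κ, hκ⟩ := exists_cpt v hv
  have h20 : (2 : L) ^ k1 ≠ 0 := pow_ne_zero _ two_ne_zero
  obtain ⟨i1, ⟨φ⟩⟩ := emb_alg (k := k) (L := L)
  refine ⟨D + 1, i1, _, inf_tors F 1 φ e κ (fun i t ht => ?_) ?_ k1 j1 ?_⟩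
  · rw [hκ t ht]
    exact hF i t ht
  · rw [map_one]
    exact one_ne_zero
  · rw [hκ _ h20, hκ _ one_ne_zero]
    exact hk1

/-- **Converse for a family of punctured lines through the generic point.** -/
theorem conv_uni {k : Type} [Field k] [NumberField k]
    (F : Fin N → MvPolynomial (Fin n) k) (h : GmUniruled (Ideal.span (Set.range F))) :
    ∃ r : ℕ, ∀ G : MvPolynomial (Fin n) k, G ∉ Ideal.span (Set.range F) →
      ∃ (_ : Algebra k Qbar) (V : Fin r → Fin n → Qbar), (torsA F G V).Infinite := by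
  classical
  obtain ⟨M0, _, _, v, hv, hvF, hvG, hnc⟩ := h
  have hchar : CharZero M0 := charZero_of_injective_algebraMap (algebraMap k M0).injective
  obtain ⟨k1, j1, hk1⟩ := exists_k1 v hv hnc
  obtain ⟨e, D, κ0, hκ0⟩ := exists_cpt v hv
  refine ⟨D + 1, fun G hG => ?_⟩
  have h20 : (2 : M0) ^ k1 ≠ 0 := pow_ne_zero _ two_ne_zero
  obtain ⟨L, _, _, hNF, κ, hκF, hκW⟩ := descendC F
    (rename Sum.inl G * (X (Sum.inr j1) - X (Sum.inl j1))) M0 e κ0
    (fun i t ht => by
      rw [hκ0 t ht]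
      exact hvF _ (Ideal.subset_span ⟨i, rfl⟩) t ht) k1 (by
    rw [hκ0 _ one_ne_zero, hκ0 _ h20, map_mul, aeval_rename, map_sub, aeval_X, aeval_X]
    simp only [Sum.elim_comp_inl, Sum.elim_inr, Sum.elim_inl]
    exact mul_ne_zero (hvG G hG) (sub_ne_zero.mpr hk1))
  rw [map_mul, aeval_rename, map_sub, aeval_X, aeval_X] at hκW
  simp only [Sum.elim_comp_inl, Sum.elim_inr, Sum.elim_inl] at hκW
  obtain ⟨i1, ⟨φ⟩⟩ := emb_alg (k := k) (L := L)
  exact ⟨i1, _, inf_tors F G φ e κ hκF (left_ne_zero_of_mul hκW) k1 j1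
    (sub_ne_zero.mp (right_ne_zero_of_mul hκW))⟩

end Pool.Agent.R849.AF
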