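import Mathlib
import Pool.Agent.Y215.AF.Defs
import Pool.Agent.R870.CycDefs

set_option autoImplicit false

/-! # Sums of vectors with small, cyclotomic or torsion multipliers: uniform finiteness -/

namespace Pool.Agent.R849.AF

open MvPolynomial NumberField
open Pool.Agent.Helper259.AbsHt Pool.Agent.TH409.SH Pool.Agent.Y215.AF

variable {K : Type} [Field K] {ι κ : Type} {n : ℕ}

/-- For `F` of degree at most `d`: over every field `L ⊇ K` with an embedding `φ` of `Qbar`, and for
all vectors `V_j` over `L`, at most `M d r` points of `V` outside `V'` are of the form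
`∑ t_j V_j` (`r` terms) with algebraic numbers `t_j` with `h(1 : t) < ε d r`. -/
def SmallUniform (ε : ℕ → ℕ → ℝ) (M : ℕ → ℕ → ℕ) (F : ι → MvPolynomial (Fin n) (𝓞 K))
    (G : κ → MvPolynomial (Fin n) (𝓞 K)) : Prop :=
  ∀ d : ℕ, 1 ≤ d → (∀ i, (F i).totalDegree ≤ d) → ∀ (r : ℕ) (L : Type) [Field L] [Algebra K L]
    (φ : Qbar →+* L) (V : Fin r → Fin n → L),
      {x : Fin n → L | OffPt F G x ∧ ∃ t : Fin r → Qbar, hA t < ε d r ∧
        ∀ a, x a = ∑ j, φ (t j) * V j a}.encard ≤ M d r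

/-- For `F` of degree at most `d`: over every field `L ⊇ K`, and for all vectors `V_j` over `L`, at
most `M d r B` points of `V` outside `V'` are of the form `∑ α_j V_j` (`r` terms) with cyclotomic
integers `α_j` in `L` for which the mean of the squares of the absolute values of the complex
conjugates is at most `B`. -/
def CycUniform (M : ℕ → ℕ → ℝ → ℕ) (F : ι → MvPolynomial (Fin n) (𝓞 K))
    (G : κ → MvPolynomial (Fin n) (𝓞 K)) : Prop :=
  ∀ d : ℕ, 1 ≤ d → (∀ i, (F i).totalDegree ≤ d) → ∀ (r : ℕ) (B : ℝ) (L : Type) [Field L]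
    [Algebra K L] (V : Fin r → Fin n → L),
      {x : Fin n → L | OffPt F G x ∧ ∃ α : Fin r → L, (∀ j, Pool.Agent.R870.CycInt B (α j)) ∧
        ∀ a, x a = ∑ j, α j * V j a}.encard ≤ M d r B

/-- For all vectors `V_j` over `Qbar` the points of `V` outside `V'` of the form `∑ ζ_j V_j` with
roots of unity `ζ_j` are finite in number. -/
def TorsFinite (F : ι → MvPolynomial (Fin n) (𝓞 K)) (G : κ → MvPolynomial (Fin n) (𝓞 K)) : Prop :=
  ∀ [Algebra K Qbar] (r : ℕ) (V : Fin r → Fin n → Qbar),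
    {x : Fin n → Qbar | OffPt F G x ∧ ∃ ζ : Fin r → Qbar, (∀ j, ∃ m : ℕ, 0 < m ∧ ζ j ^ m = 1) ∧
      ∀ a, x a = ∑ j, ζ j * V j a}.Finite

end Pool.Agent.R849.AF
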