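import Mathlib
import Pool.Agent.R849.AF.EqDefs
import Pool.Agent.R849.AF.Cyc

set_option autoImplicit false

/-! # Small multipliers and punctured lines: the equivalence -/

namespace Pool.Agent.R849.AF

open Finset MvPolynomial NumberField
open Pool.Agent.Helper259.AbsHt Pool.Agent.Y215.SP Pool.Agent.Y215.AF Pool.Agent.TH409.SH
  Pool.Agent.W235.RM
open Pool.Agent.H533R3.SL (cur)
open Pool.Agent.H159R3.Exp (Laur cpt cpt_laur ExpCurvesIn FinitelyManyIntegral)

variable {n N r : ℕ}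

/-- one combination which does not vanish at finitely many given points -/
theorem exists_comb {k : Type} [Field k] [Infinite k] {κ : Type} (G : κ → MvPolynomial (Fin n) k)
    {L : Type} [Field L] [Algebra k L] (S : Set (Fin n → L)) (hS : S.Finite)
    (h : ∀ x ∈ S, ∃ l, aeval x (G l) ≠ 0) :
    ∃ g ∈ Submodule.span k (Set.range G), ∀ x ∈ S, aeval x g ≠ 0 := by
  classical
  induction S, hS using Set.Finite.induction_on with
  | empty => exact ⟨0, Submodule.zero_mem _, fun x hx => absurd hx (Set.notMem_empty x)⟩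
  | @insert x0 S _ hS ih =>
    obtain ⟨g, hg, hg2⟩ := ih fun x hx => h x (Set.mem_insert_of_mem _ hx)
    obtain ⟨l, hl⟩ := h x0 (Set.mem_insert _ _)
    have hev : ∀ (x : Fin n → L) (c : k), aeval x (g + c • G l) =
        aeval x g + algebraMap k L c * aeval x (G l) := by
      intro x c
      rw [map_add, map_smul, Algebra.smul_def]
    have hbad : ∀ x ∈ insert x0 S, {c : k | aeval x (g + c • G l) = 0}.Subsingleton := by
      intro x hx c hc c' hc'
      have h1 : aeval x g + algebraMap k L c * aeval x (G l) = 0 := by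
        rw [← hev]; exact hc
      have h2 : aeval x g + algebraMap k L c' * aeval x (G l) = 0 := by
        rw [← hev]; exact hc'
      have h3 : (algebraMap k L c - algebraMap k L c') * aeval x (G l) = 0 := by
        linear_combination h1 - h2
      rcases mul_eq_zero.1 h3 with h4 | h4
      · exact (algebraMap k L).injective (sub_eq_zero.1 h4)
      · exfalso
        rw [h4, mul_zero, add_zero] at h1
        rcases Set.mem_insert_iff.1 hx with rfl | hx
        · exact hl h4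
        · exact hg2 x hx h1
    have hfin : (⋃ x ∈ insert x0 S, {c : k | aeval x (g + c • G l) = 0}).Finite :=
      (hS.insert x0).biUnion fun x hx => (hbad x hx).finite
    obtain ⟨c, hc⟩ := hfin.infinite_compl.nonempty
    refine ⟨g + c • G l, Submodule.add_mem _ hg (Submodule.smul_mem _ _
      (Submodule.subset_span ⟨l, rfl⟩)), fun x hx h0 => hc ?_⟩
    rw [Set.mem_iUnion₂]
    exact ⟨x, hx, h0⟩

section num

variable {K : Type} [Field K] [NumberField K] {ι κ : Type}
  (F : ι → MvPolynomial (Fin n) (𝓞 K)) (G : κ → MvPolynomial (Fin n) (𝓞 K))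

/-- the polynomials over the field -/
noncomputable def mK (p : MvPolynomial (Fin n) (𝓞 K)) : MvPolynomial (Fin n) K :=
  map (algebraMap (𝓞 K) K) p

omit [NumberField K] in
theorem aeval_mK {L : Type} [Field L] [Algebra K L] (x : Fin n → L)
    (p : MvPolynomial (Fin n) (𝓞 K)) :
    aeval x (mK p) = eval₂ ((algebraMap K L).comp (algebraMap (𝓞 K) K)) x p := by
  unfold mK
  rw [aeval_def, eval₂_map]

omit [NumberField K] in
theorem deg_mK (p : MvPolynomial (Fin n) (𝓞 K)) : (mK p).totalDegree ≤ p.totalDegree := by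
  unfold mK totalDegree
  exact Finset.sup_mono (support_map_subset _ _)

theorem curCond_span (hn : ¬ HasLaurent F G) (e : Fin N → ι) (he : Function.Surjective e) (d : ℕ)
    (hd : ∀ i, (F i).totalDegree ≤ d) (g : MvPolynomial (Fin n) K)
    (hg : g ∈ Submodule.span K (Set.range fun l => mK (G l))) (r : ℕ) :
    CurCond (fun i => mK (F (e i))) d g r := by
  classical
  intro L _ _ c l hz hc
  by_contra hne
  have hchar : CharZero L := charZero_of_injective_algebraMap (algebraMap K L).injective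
  obtain ⟨i, i', hc⟩ := hc
  obtain ⟨m, hm⟩ := lc_nonconst c l i i' hc
  obtain ⟨j1, hj1⟩ := Function.ne_iff.1 hm
  have hone : (fun a => ∑ j, c j a) = lc c l 1 := by
    funext a
    rw [lc_one]
  rw [hone] at hne
  -- one of the polynomials does not vanish
  obtain ⟨l0, hl0⟩ : ∃ l0, aeval (lc c l 1) (mK (G l0)) ≠ 0 := by
    by_contra hcon
    push Not at hcon
    apply hne
    have h1 : Submodule.span K (Set.range fun l => mK (G l)) ≤
        LinearMap.ker (aeval (lc c l 1) : MvPolynomial (Fin n) K →ₐ[K] L).toLinearMap := by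
      rw [Submodule.span_le]
      rintro _ ⟨l', rfl⟩
      exact hcon l'
    exact h1 hg
  obtain ⟨L', _, _, hNF, _, v', hv', hvF, hvW⟩ := descendM (fun i : Fin N => mK (F (e i)))
    (rename Sum.inl (mK (G l0)) * (X (Sum.inr j1) - X (Sum.inl j1))) L (lc c l) (lc_laur c l)
    (fun i t ht => lc_zero d (mK (F (e i))) ((deg_mK _).trans (hd _)) c l (hz i) t ht) m (by
      rw [map_mul, aeval_rename, map_sub, aeval_X, aeval_X]
      simp only [Sum.elim_comp_inl, Sum.elim_inr, Sum.elim_inl]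
      exact mul_ne_zero hl0 (sub_ne_zero.mpr hj1))
  rw [map_mul, aeval_rename, map_sub, aeval_X, aeval_X] at hvW
  simp only [Sum.elim_comp_inl, Sum.elim_inr, Sum.elim_inl] at hvW
  refine hn ⟨L', inferInstance, hNF, inferInstance, v', hv', fun i t ht => ?_, ⟨l0, ?_⟩, m, j1,
    sub_ne_zero.mp (right_ne_zero_of_mul hvW)⟩
  · obtain ⟨i, rfl⟩ := he i
    rw [← aeval_mK]
    exact hvF i t ht
  · rw [← aeval_mK]
    exact left_ne_zero_of_mul hvW

theorem le_of_finite_sub {α : Type} (S : Set α) (M : ℕ)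
    (h : ∀ T ⊆ S, T.Finite → T.encard ≤ M) : S.encard ≤ M := by
  by_contra hcon
  push Not at hcon
  have h1 : ((M + 1 : ℕ) : ℕ∞) ≤ S.encard := by
    have := Order.add_one_le_of_lt hcon
    push_cast
    exact this
  obtain ⟨T, hT, hT2⟩ := Set.exists_subset_encard_eq h1
  have h2 := h T hT (Set.finite_of_encard_eq_coe hT2)
  rw [hT2] at h2
  have h3 : M + 1 ≤ M := by exact_mod_cast h2
  omega

theorem smallUniform [Finite ι] (hn : ¬ HasLaurent F G) : SmallUniform epsA MA F G := by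
  classical
  have := Fintype.ofFinite ι
  intro d hd1 hd r L _ _ φ V
  let e := (Fintype.equivFin ι).symm
  have hinf : Infinite K := inferInstance
  refine le_of_finite_sub _ _ fun T hT hTf => ?_
  obtain ⟨g, hg, hg2⟩ := exists_comb (fun l => mK (G l)) T hTf (fun x hx => by
    obtain ⟨⟨-, l, hl⟩, -⟩ := hT hx
    refine ⟨l, ?_⟩
    rw [aeval_mK]
    exact hl)
  refine (Set.encard_le_encard ?_).trans (card_smallA (fun i => mK (F (e i))) d hd1
    (fun i => (deg_mK _).trans (hd _)) g (curCond_span F G hn e e.surjective d hd g hg r) φ V)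
  intro x hx
  obtain ⟨⟨h1, -⟩, t, ht, hxt⟩ := hT hx
  refine ⟨⟨fun i => ?_, hg2 x hx⟩, t, ht, hxt⟩
  rw [aeval_mK]
  exact h1 _

/-- the bound for cyclotomic integers -/
theorem cycUniform : ∃ M : ℕ → ℕ → ℝ → ℕ, ∀ (n : ℕ) (K : Type) [Field K] [NumberField K]
    (ι κ : Type) [Finite ι] (F : ι → MvPolynomial (Fin n) (𝓞 K))
    (G : κ → MvPolynomial (Fin n) (𝓞 K)), ¬ HasLaurent F G → CycUniform M F G := by
  classical
  have h0 : ∀ (d r : ℕ) (B : ℝ), ∃ M : ℕ × ℕ, 1 ≤ d → ∀ (k : Type) [Field k]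
    [CharZero k] (n N : ℕ) (F : Fin N → MvPolynomial (Fin n) k), (∀ i, (F i).totalDegree ≤ d) →
    ∀ (G : MvPolynomial (Fin n) k), CurCond F d G M.2 →
      ∀ (L : Type) [Field L] [Algebra k L] (V : Fin r → Fin n → L),
        (cycA F G B V).encard ≤ M.1 := by
    intro d r B
    by_cases hd : 1 ≤ d
    · obtain ⟨M, R, h⟩ := cyc_bound d r hd B
      exact ⟨(M, R), fun _ => h⟩
    · exact ⟨(0, 0), fun h => absurd h hd⟩
  choose M hM using h0
  refine ⟨fun d r B => (M d r B).1, fun n K _ _ ι κ _ F G hn d hd1 hd r B L _ _ V => ?_⟩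
  have := Fintype.ofFinite ι
  let e := (Fintype.equivFin ι).symm
  refine le_of_finite_sub _ _ fun T hT hTf => ?_
  obtain ⟨g, hg, hg2⟩ := exists_comb (fun l => mK (G l)) T hTf (fun x hx => by
    obtain ⟨⟨-, l, hl⟩, -⟩ := hT hx
    refine ⟨l, ?_⟩
    rw [aeval_mK]
    exact hl)
  refine (Set.encard_le_encard ?_).trans (hM d r B hd1 K n _ (fun i => mK (F (e i)))
    (fun i => (deg_mK _).trans (hd _)) g (curCond_span F G hn e e.surjective d hd g hg _) L V)
  intro x hx
  obtain ⟨⟨h1, -⟩, α, hα, hxt⟩ := hT hx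
  refine ⟨⟨fun i => ?_, hg2 x hx⟩, α, hα, hxt⟩
  rw [aeval_mK]
  exact h1 _

theorem cycInt_tors {L : Type} [Field L] (z : L) (hz : ∃ m : ℕ, 0 < m ∧ z ^ m = 1) :
    Pool.Agent.R870.CycInt 1 z := by
  obtain ⟨m, hm, hz⟩ := hz
  have h5 : 0 < orderOf z := orderOf_pos_iff.2 (isOfFinOrder_iff_pow_eq_one.2 ⟨m, hm, hz⟩)
  refine ⟨orderOf z, z, Polynomial.X, h5, IsPrimitiveRoot.orderOf _, ?_, Polynomial.aeval_X _⟩
  have h6 : (∑ w ∈ primitiveRoots (orderOf z) ℂ,
      ‖Polynomial.aeval w (Polynomial.X : Polynomial ℤ)‖ ^ 2) =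
      ((orderOf z).totient : ℝ) := by
    rw [Finset.sum_congr rfl (g := fun _ => (1 : ℝ)), Finset.sum_const, Complex.card_primitiveRoots,
      nsmul_eq_mul, mul_one]
    intro w hw
    rw [mem_primitiveRoots h5] at hw
    rw [Polynomial.aeval_X, hw.norm'_eq_one h5.ne', one_pow]
  rw [h6, div_self]
  exact_mod_cast (Nat.totient_pos.2 h5).ne'

omit [NumberField K] in
theorem exists_degι [Finite ι] : ∃ d : ℕ, 1 ≤ d ∧ ∀ i, (F i).totalDegree ≤ d := by
  have := Fintype.ofFinite ι
  refine ⟨∑ i, (F i).totalDegree + 1, by omega, fun i => ?_⟩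
  have := Finset.single_le_sum (f := fun i => (F i).totalDegree) (fun _ _ => Nat.zero_le _)
    (Finset.mem_univ i)
  omega

omit [NumberField K] in
theorem tors_of_small [Finite ι] (ε : ℕ → ℕ → ℝ) (hε : ∀ d r, 1 ≤ d → 0 < ε d r)
    (M : ℕ → ℕ → ℕ) (h : SmallUniform ε M F G) : TorsFinite F G := by
  obtain ⟨d, hd1, hd⟩ := exists_degι F
  intro _ r V
  refine (Set.finite_of_encard_le_coe (h d hd1 hd r Qbar (RingHom.id Qbar) V)).subset ?_
  rintro x ⟨hx, ζ, hζ, hxζ⟩
  refine ⟨hx, ζ, ?_, hxζ⟩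
  rw [hA_tors ζ fun j => Or.inr (hζ j)]
  exact hε d r hd1

omit [NumberField K] in
theorem tors_of_cyc [Finite ι] (M : ℕ → ℕ → ℝ → ℕ) (h : CycUniform M F G) : TorsFinite F G := by
  obtain ⟨d, hd1, hd⟩ := exists_degι F
  intro _ r V
  refine (Set.finite_of_encard_le_coe (h d hd1 hd r 1 Qbar V)).subset ?_
  rintro x ⟨hx, ζ, hζ, hxζ⟩
  exact ⟨hx, ζ, fun j => cycInt_tors _ (hζ j), hxζ⟩

theorem not_tors [Finite ι] (h : HasLaurent F G) : ¬ TorsFinite F G := by
  classical
  have := Fintype.ofFinite ι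
  obtain ⟨L, _, _, _, v, hv, hF, ⟨l0, hl0⟩, k1, j1, hk1⟩ := h
  intro hT
  obtain ⟨e, D, κ0, hκ⟩ := exists_cpt v hv
  have h20 : (2 : L) ^ k1 ≠ 0 := pow_ne_zero _ two_ne_zero
  obtain ⟨i1, ⟨φ⟩⟩ := emb_alg (k := K) (L := L)
  have h1 := hT (D + 1) (fun (i : Fin (D + 1)) (a : Fin n) => φ (κ0 (a, i)))
  let e' := (Fintype.equivFin ι).symm
  have h2 : (torsA (fun i => mK (F (e' i))) (mK (G l0))
      (fun (i : Fin (D + 1)) (a : Fin n) => φ (κ0 (a, i)))).Infinite := by
    refine inf_tors _ (mK (G l0)) φ e κ0 (fun i t ht => ?_) ?_ k1 j1 ?_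
    · rw [aeval_mK, hκ t ht]
      exact hF _ t ht
    · rw [aeval_mK, hκ 1 one_ne_zero]
      exact hl0
    · rw [hκ _ h20, hκ _ one_ne_zero]
      exact hk1
  refine h2 (h1.subset ?_)
  rintro x ⟨⟨hx1, hx2⟩, ζ, hζ, hx⟩
  refine ⟨⟨fun i => ?_, l0, ?_⟩, ζ, hζ, hx⟩
  · have h3 : aeval x (mK (F (e' (e'.symm i)))) = 0 := hx1 _
    rw [Equiv.apply_symm_apply, aeval_mK] at h3
    exact h3
  · rw [← aeval_mK]
    exact hx2

end num

end Pool.Agent.R849.AF
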